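import Pool.Agent.Q297.DRC.Field

/-! A dense subfield of a countable real closed field without new points on `x³ + y³ = 1`. -/

namespace Pool.Agent.Q297.DRC

open Polynomial IntermediateField AlgebraicIndependent

variable {R : Type} [Field R] [LinearOrder R] [IsStrictOrderedRing R] [Algebra ℚ R]

/-- The subfields used in the recursion. -/
structure Good (k F : IntermediateField ℚ R) : Prop where
  le : k ≤ F
  noNew : NoNew k F
  fin : ∃ s : Set R, s.Finite ∧ (F : Set R) ⊆ (matroid ℚ R).closure s

omit [LinearOrder R] [IsStrictOrderedRing R] in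
theorem isAlgebraic_of_subset {F : IntermediateField ℚ R} {S : Subalgebra ℚ R}
    (h : (F : Set R) ⊆ S) {a : R} (ha : IsAlgebraic F a) : IsAlgebraic S a := by
  obtain ⟨p, hp0, hp⟩ := ha
  have hle : F.toSubalgebra ≤ S := h
  let i : F.toSubalgebra →+* S := (Subalgebra.inclusion hle).toRingHom
  have hi : Function.Injective i := Subalgebra.inclusion_injective hle
  refine ⟨p.map i, (Polynomial.map_ne_zero_iff hi).2 hp0, ?_⟩
  have : aeval a (p.map i) = aeval a p := by
    rw [Polynomial.aeval_def, Polynomial.eval₂_map]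
    rfl
  rw [this, hp]

theorem closure_closed (s : Set R) : ∃ S : Subalgebra ℚ R,
    (S : Set R) = (matroid ℚ R).closure s ∧ ∀ a : R, IsAlgebraic S a → a ∈ S := by
  have h := (matroid_isFlat_iff (R := ℚ) (A := R) (s := (matroid ℚ R).closure s)).1
    ((matroid ℚ R).isFlat_closure s)
  obtain ⟨S, hS, h⟩ := h
  refine ⟨S, hS, fun a ha => ?_⟩
  have := h a ha
  rw [← hS] at this
  exact this

theorem Good.exists_transcendental {k F : IntermediateField ℚ R} (h : Good k F)
    (htr : Cardinal.aleph0 ≤ Algebra.trdeg ℚ R) : ∃ x : R, Transcendental F x := by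
  by_contra hc
  push Not at hc
  obtain ⟨s, hs, hFs⟩ := h.fin
  obtain ⟨S, hS, hcl⟩ := closure_closed (R := R) s
  have hall : ∀ x : R, x ∈ (matroid ℚ R).closure s := by
    intro x
    rw [← hS]
    apply hcl
    have hx := hc x
    rw [Transcendental, not_not] at hx
    exact isAlgebraic_of_subset (by rw [hS]; exact hFs) hx
  have halg : Algebra.IsAlgebraic (Algebra.adjoin ℚ s) R := by
    refine ⟨fun x => ?_⟩
    have := hall x
    rw [matroid_closure_eq] at this
    exact this
  have := Algebra.IsAlgebraic.trdeg_le_cardinalMk ℚ s (A := R)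
  have hlt : Cardinal.mk s < Cardinal.aleph0 := Cardinal.lt_aleph0_iff_finite.2 hs
  exact absurd (htr.trans this) (not_le.2 hlt)

theorem Good.step {k F : IntermediateField ℚ R} (h : Good k F)
    (htr : Cardinal.aleph0 ≤ Algebra.trdeg ℚ R) (a b : R) :
    ∃ F' : IntermediateField ℚ R, Good k F' ∧ F ≤ F' ∧ (a < b → ∃ c ∈ F', a < c ∧ c < b) := by
  by_cases hab : a < b
  · obtain ⟨c, hac, hcb, hc⟩ := exists_transcendental_between (h.exists_transcendental htr) hab
    refine ⟨(F⟮c⟯).restrictScalars ℚ, ⟨?_, noNew_adjoin h.noNew hc, ?_⟩, ?_, fun _ =>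
      ⟨c, ?_, hac, hcb⟩⟩
    · intro x hx
      rw [IntermediateField.mem_restrictScalars]
      exact IntermediateField.algebraMap_mem (F⟮c⟯) (⟨x, h.le hx⟩ : F)
    · obtain ⟨s, hs, hFs⟩ := h.fin
      refine ⟨insert c s, hs.insert c, ?_⟩
      obtain ⟨S, hS, hcl⟩ := closure_closed (R := R) (insert c s)
      rw [← hS]
      have hFS : ∀ x ∈ F, x ∈ S := by
        intro x hx
        have : x ∈ (matroid ℚ R).closure (insert c s) :=
          (matroid ℚ R).closure_subset_closure (Set.subset_insert c s) (hFs hx)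
        rw [← hS] at this
        exact this
      have hcS : c ∈ S := by
        have : c ∈ (matroid ℚ R).closure (insert c s) :=
          (matroid ℚ R).mem_closure_of_mem (Set.mem_insert c s) (by simp [matroid_e])
        rw [← hS] at this
        exact this
      have hpoly : ∀ p : F[X], aeval c p ∈ S := by
        intro p
        induction p using Polynomial.induction_on' with
        | add p q hp hq => rw [map_add]; exact S.add_mem hp hq
        | monomial n a =>
          rw [aeval_monomial]
          exact S.mul_mem (hFS _ a.2) (S.pow_mem hcS n)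
      have hinv : ∀ x ∈ S, x⁻¹ ∈ S := by
        intro x hx
        apply hcl
        exact (isAlgebraic_algebraMap (⟨x, hx⟩ : S)).inv
      intro x hx
      rw [SetLike.mem_coe, IntermediateField.mem_restrictScalars] at hx
      obtain ⟨p, q, rfl⟩ := (IntermediateField.mem_adjoin_simple_iff F x).1 hx
      rw [div_eq_mul_inv]
      exact S.mul_mem (hpoly p) (hinv _ (hpoly q))
    · intro x hx
      rw [IntermediateField.mem_restrictScalars]
      exact IntermediateField.algebraMap_mem (F⟮c⟯) (⟨x, hx⟩ : F)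
    · rw [IntermediateField.mem_restrictScalars]
      exact IntermediateField.mem_adjoin_simple_self F c
  · exact ⟨F, h, le_rfl, fun h' => absurd h' hab⟩

/-- The recursion: a dense subfield without new points. -/
theorem exists_dense [Countable R] (htr : Cardinal.aleph0 ≤ Algebra.trdeg ℚ R)
    {k : IntermediateField ℚ R} (hk : Good k k) :
    ∃ U : IntermediateField ℚ R, k ≤ U ∧ NoNew k U ∧
      ∀ a b : R, a < b → ∃ c ∈ U, a < c ∧ c < b := by
  obtain ⟨e, he⟩ := exists_surjective_nat (R × R)
  choose! g hg using fun (F : {F : IntermediateField ℚ R // Good k F}) (a b : R) =>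
    F.2.step htr a b
  let f : ℕ → {F : IntermediateField ℚ R // Good k F} := fun n =>
    Nat.rec ⟨k, hk⟩ (fun n F => ⟨g F (e n).1 (e n).2, (hg F (e n).1 (e n).2).1⟩) n
  have hsucc : ∀ n, (f n).1 ≤ (f (n + 1)).1 := fun n => (hg (f n) (e n).1 (e n).2).2.1
  have hmono : Monotone (fun n => (f n).1) := monotone_nat_of_le_succ hsucc
  have hdir : Directed (· ≤ ·) (fun n => (f n).1) := hmono.directed_le
  have hmem : ∀ x, x ∈ (⨆ n, (f n).1) ↔ ∃ n, x ∈ (f n).1 := by
    intro x
    have := IntermediateField.coe_iSup_of_directed hdir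
    rw [← SetLike.mem_coe, this]
    simp
  refine ⟨⨆ n, (f n).1, ?_, ?_, ?_⟩
  · exact (f 0).2.le.trans (le_iSup (fun n => (f n).1) 0)
  · intro x hx y hy hxy
    obtain ⟨m, hm⟩ := (hmem x).1 hx
    obtain ⟨n, hn⟩ := (hmem y).1 hy
    exact (f (max m n)).2.noNew x (hmono (le_max_left m n) hm) y
      (hmono (le_max_right m n) hn) hxy
  · intro a b hab
    obtain ⟨n, hn⟩ := he (a, b)
    have := (hg (f n) (e n).1 (e n).2).2.2
    rw [hn] at this
    obtain ⟨c, hc, h⟩ := this hab
    refine ⟨c, (hmem c).2 ⟨n + 1, ?_⟩, h⟩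
    change c ∈ g (f n) (e n).1 (e n).2
    rw [hn]
    exact hc

/-- A maximal subfield without new points; the field is algebraic over it. -/
theorem exists_maximal {k U : IntermediateField ℚ R} (hU : NoNew k U) :
    ∃ K : IntermediateField ℚ R, U ≤ K ∧ NoNew k K ∧ ∀ x : R, IsAlgebraic K x := by
  obtain ⟨K, hUK, hK⟩ := zorn_le_nonempty₀ {F : IntermediateField ℚ R | NoNew k F}
    (fun c hc hchain F₀ hF₀ => by
      have hne : Nonempty c := ⟨⟨F₀, hF₀⟩⟩
      have hdir : Directed (· ≤ ·) (fun F : c => F.1) := by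
        intro F G
        rcases hchain.total F.2 G.2 with h | h
        · exact ⟨G, h, le_rfl⟩
        · exact ⟨F, le_rfl, h⟩
      have hmem : ∀ x, x ∈ (⨆ F : c, F.1) ↔ ∃ F : c, x ∈ F.1 := by
        intro x
        have := IntermediateField.coe_iSup_of_directed hdir
        rw [← SetLike.mem_coe, this]
        simp
      refine ⟨⨆ F : c, F.1, ?_, fun F hF => le_iSup (fun F : c => F.1) ⟨F, hF⟩⟩
      intro x hx y hy hxy
      obtain ⟨F, hF⟩ := (hmem x).1 hx
      obtain ⟨G, hG⟩ := (hmem y).1 hy
      obtain ⟨H, hFH, hGH⟩ := hdir F G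
      exact hc H.2 x (hFH hF) y (hGH hG) hxy) U hU
  refine ⟨K, hUK, hK.prop, fun x => ?_⟩
  by_contra hx
  have h₁ := noNew_adjoin hK.prop (b := x) hx
  have hle : K ≤ (K⟮x⟯).restrictScalars ℚ := by
    intro y hy
    rw [IntermediateField.mem_restrictScalars]
    exact IntermediateField.algebraMap_mem (K⟮x⟯) (⟨y, hy⟩ : K)
  have h₂ : (K⟮x⟯).restrictScalars ℚ ≤ K := hK.le_of_ge h₁ hle
  apply hx
  have : x ∈ K := h₂ (by
    rw [IntermediateField.mem_restrictScalars]
    exact IntermediateField.mem_adjoin_simple_self K x)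
  exact isAlgebraic_algebraMap (⟨x, this⟩ : K)

/-- The field of algebraic numbers in `R`. -/
theorem good_algebraicClosure : Good (algebraicClosure ℚ R) (algebraicClosure ℚ R) where
  le := le_rfl
  noNew := fun x hx _ _ _ => hx
  fin := by
    refine ⟨∅, Set.finite_empty, ?_⟩
    intro x hx
    obtain ⟨S, hS, hcl⟩ := closure_closed (R := R) ∅
    rw [← hS]
    apply hcl
    have : IsAlgebraic ℚ x := mem_algebraicClosure_iff.1 hx
    exact this.extendScalars (algebraMap ℚ S).injective

end Pool.Agent.Q297.DRC
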