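import Mathlib

/-! Subfields of a real closed field without new points on `x³ + y³ = 1`. -/

namespace Pool.Agent.Q297.DRC

open Polynomial IntermediateField

variable {R : Type} [Field R] [LinearOrder R] [IsStrictOrderedRing R] [Algebra ℚ R]

/-- The solutions of `x³ + y³ = 1` in `F` have their coordinate `x` in `k`. -/
def NoNew (k F : IntermediateField ℚ R) : Prop := ∀ x ∈ F, ∀ y ∈ F, x ^ 3 + y ^ 3 = 1 → x ∈ k

omit [Algebra ℚ R] in
theorem eq_one_of_cube {y : R} (h : y ^ 3 = 1) : y = 1 := by
  have h1 : y ^ 3 = 1 ^ 3 := by rw [h, one_pow]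
  exact (Odd.strictMono_pow (by decide : Odd 3)).injective h1

theorem noNew_adjoin {k F : IntermediateField ℚ R} (h : NoNew k F) {b : R}
    (hb : Transcendental F b) : NoNew k ((F⟮b⟯).restrictScalars ℚ) := by
  intro x hx y hy hxy
  rw [IntermediateField.mem_restrictScalars] at hx hy
  suffices hF : x ∈ F ∧ y ∈ F from h x hF.1 y hF.2 hxy
  by_cases hx0 : x = 0
  · subst hx0
    have : y ^ 3 = 1 := by simpa using hxy
    rw [eq_one_of_cube this]
    exact ⟨F.zero_mem, F.one_mem⟩
  by_cases hy0 : y = 0
  · subst hy0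
    have : x ^ 3 = 1 := by simpa using hxy
    rw [eq_one_of_cube this]
    exact ⟨F.one_mem, F.zero_mem⟩
  obtain ⟨p, q, hp⟩ := (IntermediateField.mem_adjoin_simple_iff F x).1 hx
  obtain ⟨r, s, hr⟩ := (IntermediateField.mem_adjoin_simple_iff F y).1 hy
  have hq0 : aeval b q ≠ 0 := by intro e; rw [e, div_zero] at hp; exact hx0 hp
  have hp0 : aeval b p ≠ 0 := by intro e; rw [e, zero_div] at hp; exact hx0 hp
  have hs0 : aeval b s ≠ 0 := by intro e; rw [e, div_zero] at hr; exact hy0 hr
  have hr0 : aeval b r ≠ 0 := by intro e; rw [e, zero_div] at hr; exact hy0 hr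
  have hinj : Function.Injective (aeval b : F[X] →ₐ[F] R) := transcendental_iff_injective.1 hb
  have heq : (p * s) ^ 3 + (r * q) ^ 3 = (q * s) ^ 3 := by
    apply hinj
    simp only [map_add, map_pow, map_mul]
    have hx' : aeval b p = x * aeval b q := by rw [hp]; field_simp
    have hy' : aeval b r = y * aeval b s := by rw [hr]; field_simp
    rw [hx', hy']
    linear_combination (aeval b q) ^ 3 * (aeval b s) ^ 3 * hxy
  have hne : ∀ u v : F[X], aeval b u ≠ 0 → aeval b v ≠ 0 → u * v ≠ 0 := by
    intro u v hu hv e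
    have : aeval b (u * v) = 0 := by rw [e, map_zero]
    rw [map_mul] at this
    rcases mul_eq_zero.1 this with h | h
    · exact hu h
    · exact hv h
  obtain ⟨d, a', b', c', ⟨h₁, h₂, h₃⟩, ua, ub, uc⟩ :=
    fermatLastTheoremWith'_polynomial (k := F) (n := 3) le_rfl (by
      have : (3 : F) ≠ 0 := by norm_num
      exact_mod_cast this) _ _ _ (hne _ _ hp0 hs0) (hne _ _ hr0 hq0) (hne _ _ hq0 hs0) heq
  obtain ⟨α, hα, rfl⟩ := Polynomial.isUnit_iff.1 ua
  obtain ⟨β, hβ, rfl⟩ := Polynomial.isUnit_iff.1 ub
  obtain ⟨γ, hγ, rfl⟩ := Polynomial.isUnit_iff.1 uc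
  have e₁ : aeval b p * aeval b s = (α : R) * aeval b d := by
    have := congrArg (aeval b) h₁
    simpa [map_mul, aeval_C] using this
  have e₂ : aeval b r * aeval b q = (β : R) * aeval b d := by
    have := congrArg (aeval b) h₂
    simpa [map_mul, aeval_C] using this
  have e₃ : aeval b q * aeval b s = (γ : R) * aeval b d := by
    have := congrArg (aeval b) h₃
    simpa [map_mul, aeval_C] using this
  have hd0 : aeval b d ≠ 0 := by
    intro e
    rw [e, mul_zero] at e₃
    rcases mul_eq_zero.1 e₃ with h | h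
    · exact hq0 h
    · exact hs0 h
  have hγ0 : (γ : R) ≠ 0 := by
    intro e
    rw [e, zero_mul] at e₃
    rcases mul_eq_zero.1 e₃ with h | h
    · exact hq0 h
    · exact hs0 h
  have hxe : x = (α : R) / γ := by
    rw [eq_div_iff hγ0, hp, div_mul_eq_mul_div, div_eq_iff hq0]
    apply mul_right_cancel₀ hs0
    apply mul_right_cancel₀ hd0
    linear_combination (γ : R) * aeval b d * e₁ - (α : R) * aeval b d * e₃
  have hye : y = (β : R) / γ := by
    rw [eq_div_iff hγ0, hr, div_mul_eq_mul_div, div_eq_iff hs0]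
    apply mul_right_cancel₀ hq0
    apply mul_right_cancel₀ hd0
    linear_combination (γ : R) * aeval b d * e₂ - (β : R) * aeval b d * e₃
  exact ⟨hxe ▸ F.div_mem α.2 γ.2, hye ▸ F.div_mem β.2 γ.2⟩

/-- Every interval contains an element transcendental over `F`, if there is one at all. -/
theorem exists_transcendental_between {F : IntermediateField ℚ R}
    (hF : ∃ x : R, Transcendental F x) {a b : R} (hab : a < b) :
    ∃ c, a < c ∧ c < b ∧ Transcendental F c := by
  obtain ⟨x, hx⟩ := hF
  by_contra hc
  push Not at hc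
  have halg : ∀ c, a < c → c < b → IsAlgebraic F c := by
    intro c h₁ h₂
    have := hc c h₁ h₂
    rwa [Transcendental, not_not] at this
  apply hx
  set m := (a + b) / 2 with hm
  set e := (b - a) / (4 * (1 + |x|)) with he
  have hx1 : 0 < 1 + |x| := by positivity
  have he0 : 0 < e := by rw [he]; apply div_pos <;> linarith
  have hex : e * (1 + |x|) = (b - a) / 4 := by
    rw [he]; field_simp
  have hxabs := abs_nonneg x
  have h1 : e ≤ (b - a) / 4 := by nlinarith
  have h2 : |e * x| ≤ (b - a) / 4 := by
    rw [abs_mul, abs_of_pos he0]; nlinarith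
  rw [abs_le] at h2
  have am : IsAlgebraic F m := halg m (by rw [hm]; linarith) (by rw [hm]; linarith)
  have ame : IsAlgebraic F (m + e) :=
    halg _ (by rw [hm]; linarith) (by rw [hm]; linarith)
  have amx : IsAlgebraic F (m + e * x) :=
    halg _ (by rw [hm]; linarith) (by rw [hm]; linarith)
  have ae : IsAlgebraic F e := by
    have := ame.sub am
    simpa using this
  have aex : IsAlgebraic F (e * x) := by
    have := amx.sub am
    simpa using this
  have : x = (e * x) * e⁻¹ := by field_simp
  rw [this]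
  exact aex.mul ae.inv

/-- An element algebraic over `ℚ` is bounded by a natural number. -/
theorem le_nat_of_isAlgebraic {c : R} (hc : IsAlgebraic ℚ c) : ∃ n : ℕ, c ≤ n := by
  by_contra hcon
  push Not at hcon
  obtain ⟨p, hp0, hp⟩ := hc
  have hc1 : 1 < c := by simpa using hcon 1
  have hc0 : 0 < c := by linarith
  have hrat : ∀ q : ℚ, algebraMap ℚ R q = (q : R) := fun q => by simp
  have key : ∀ q : ℚ[X], ∃ N : ℕ, |aeval c q| ≤ N * c ^ q.natDegree := by
    intro q
    have : ∀ m, q.natDegree ≤ m → ∃ N : ℕ, |aeval c q| ≤ N * c ^ m := by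
      intro m hm
      rw [aeval_eq_sum_range' (Nat.lt_succ_of_le hm)]
      have : ∀ t, t ≤ m + 1 → ∃ N : ℕ,
          |∑ i ∈ Finset.range t, q.coeff i • c ^ i| ≤ N * c ^ m := by
        intro t
        induction t with
        | zero => intro _; exact ⟨0, by simp⟩
        | succ t ih =>
          intro ht
          obtain ⟨N, hN⟩ := ih (by omega)
          obtain ⟨M, hM⟩ := exists_nat_ge |q.coeff t|
          refine ⟨N + M, ?_⟩
          rw [Finset.sum_range_succ]
          refine (abs_add_le _ _).trans ?_
          have h₁ : |q.coeff t • c ^ t| ≤ M * c ^ m := by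
            rw [Algebra.smul_def, hrat, abs_mul, abs_of_pos (pow_pos hc0 t)]
            have h₂ : |((q.coeff t : ℚ) : R)| ≤ M := by
              rw [← Rat.cast_abs]
              exact_mod_cast hM
            have h₃ : c ^ t ≤ c ^ m := pow_le_pow_right₀ hc1.le (by omega)
            have h₄ : 0 ≤ c ^ t := (pow_pos hc0 t).le
            calc _ ≤ (M : R) * c ^ t := mul_le_mul_of_nonneg_right h₂ h₄
              _ ≤ _ := mul_le_mul_of_nonneg_left h₃ (by positivity)
          push_cast
          rw [add_mul]
          linarith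
      exact this _ le_rfl
    exact this _ le_rfl
  by_cases hd : p.natDegree = 0
  · rw [Polynomial.eq_C_of_natDegree_eq_zero hd] at hp
    simp only [aeval_C] at hp
    have : p.coeff 0 = 0 := by simpa using hp
    apply hp0
    rw [Polynomial.eq_C_of_natDegree_eq_zero hd, this, map_zero]
  · obtain ⟨N, hN⟩ := key p.eraseLead
    have hlt : p.eraseLead.natDegree ≤ p.natDegree - 1 := Polynomial.eraseLead_natDegree_le p
    have h₀ : aeval c p.eraseLead + ((p.leadingCoeff : ℚ) : R) * c ^ p.natDegree = 0 := by
      have := congrArg (aeval c) (Polynomial.eraseLead_add_monomial_natDegree_leadingCoeff p)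
      rw [map_add, aeval_monomial, hp, hrat] at this
      exact this
    have hlc : p.leadingCoeff ≠ 0 := by simpa using hp0
    have hlc' : 0 < |p.leadingCoeff| := abs_pos.2 hlc
    have h₁ : |((p.leadingCoeff : ℚ) : R)| * c ^ p.natDegree ≤ N * c ^ (p.natDegree - 1) := by
      have e : ((p.leadingCoeff : ℚ) : R) * c ^ p.natDegree = - aeval c p.eraseLead := by
        linear_combination h₀
      have : |((p.leadingCoeff : ℚ) : R)| * c ^ p.natDegree = |aeval c p.eraseLead| := by
        rw [← abs_neg (aeval c p.eraseLead), ← e, abs_mul, abs_of_pos (pow_pos hc0 _)]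
      rw [this]
      refine hN.trans ?_
      exact mul_le_mul_of_nonneg_left (pow_le_pow_right₀ hc1.le hlt) (by positivity)
    have h₂ : c ^ p.natDegree = c ^ (p.natDegree - 1) * c := by
      rw [← pow_succ]; congr 1; omega
    rw [h₂] at h₁
    have h₃ : |((p.leadingCoeff : ℚ) : R)| * c ≤ N := by
      have hpos : 0 < c ^ (p.natDegree - 1) := pow_pos hc0 _
      by_contra hcc
      push Not at hcc
      nlinarith
    obtain ⟨M, hM⟩ := exists_nat_ge (N / |p.leadingCoeff|)
    have h₄ : c ≤ M := by
      have hM' : (N : ℚ) ≤ M * |p.leadingCoeff| := (div_le_iff₀ hlc').1 hM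
      have hM'' : (N : R) ≤ M * |((p.leadingCoeff : ℚ) : R)| := by
        rw [← Rat.cast_abs]
        exact_mod_cast hM'
      have hl : 0 < |((p.leadingCoeff : ℚ) : R)| := by
        rw [← Rat.cast_abs]; exact_mod_cast hlc'
      by_contra hcc
      push Not at hcc
      nlinarith
    exact absurd h₄ (not_le.2 (hcon M))

end Pool.Agent.Q297.DRC
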