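import Pool.Agent.Q297.DRC.Build

/-! The hyperreals are real closed; a countable real closed subfield of infinite transcendence
degree with an infinite element. -/

namespace Pool.Agent.Q297.DRC

open Polynomial IntermediateField Filter Hyperreal

theorem odd_root {p : ℝ[X]} (h : Odd p.natDegree) : ∃ x, p.eval x = 0 := by
  have main : ∀ q : ℝ[X], Odd q.natDegree → 0 < q.leadingCoeff → ∃ x, q.eval x = 0 := by
    intro q hq hlc
    have hpos : 0 < q.natDegree := hq.pos
    have hdeg : 0 < q.degree := natDegree_pos_iff_degree_pos.1 hpos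
    have h₁ := q.tendsto_atTop_of_leadingCoeff_nonneg hdeg hlc.le
    obtain ⟨M, hM⟩ := (h₁.eventually_ge_atTop 0).exists
    have hnd : (q.comp (-X)).natDegree = q.natDegree := by
      rw [natDegree_comp]; simp
    have hlc' : (q.comp (-X)).leadingCoeff = - q.leadingCoeff := by
      rw [leadingCoeff_comp (by simp)]
      simp [hq.neg_one_pow]
    have hdeg' : 0 < (q.comp (-X)).degree := natDegree_pos_iff_degree_pos.1 (by rw [hnd]; exact hpos)
    have h₂ := (q.comp (-X)).tendsto_atBot_of_leadingCoeff_nonpos hdeg' (by rw [hlc']; linarith)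
    obtain ⟨N, hN⟩ := (h₂.eventually_le_atBot 0).exists
    have hN' : q.eval (-N) ≤ 0 := by simpa using hN
    exact mem_range_of_exists_le_of_exists_ge q.continuous ⟨-N, hN'⟩ ⟨M, hM⟩
  have hne : p ≠ 0 := by rintro rfl; simp at h
  rcases lt_or_gt_of_ne (leadingCoeff_ne_zero.2 hne) with hl | hl
  · obtain ⟨x, hx⟩ := main (-p) (by rwa [natDegree_neg]) (by rw [leadingCoeff_neg]; linarith)
    exact ⟨x, by simpa using hx⟩
  · exact main p h hl

/-- The ring homomorphism from sequences to hyperreals. -/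
noncomputable def seq : (ℕ → ℝ) →+* ℝ* := Germ.coeRingHom (hyperfilter ℕ : Filter ℕ)

theorem seq_surjective : Function.Surjective seq := Hyperreal.ofSeq_surjective

theorem seq_eq_zero {a : ℕ → ℝ} : seq a = 0 ↔ ∀ᶠ m in (hyperfilter ℕ : Filter ℕ), a m = 0 := by
  have h : seq a = 0 ↔ (a : Germ (hyperfilter ℕ : Filter ℕ) ℝ) = ((fun _ => 0 : ℕ → ℝ)) := Iff.rfl
  rw [h]
  exact Germ.coe_eq

theorem hyperreal_odd_root {f : ℝ*[X]} (hf : Odd f.natDegree) : ∃ x, f.IsRoot x := by
  classical
  choose a ha using fun i => seq_surjective (f.coeff i)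
  set n := f.natDegree with hn
  let P : (ℕ → ℝ)[X] := ∑ i ∈ Finset.range (n + 1), C (a i) * X ^ i
  have hP : P.map seq = f := by
    rw [Polynomial.map_sum]
    conv_rhs => rw [f.as_sum_range_C_mul_X_pow]
    refine Finset.sum_congr rfl fun i _ => ?_
    rw [Polynomial.map_mul, map_C, Polynomial.map_pow, map_X, ha]
  let Q : ℕ → ℝ[X] := fun m => P.map (Pi.evalRingHom (fun _ => ℝ) m)
  have hQ : ∀ m, Q m = ∑ i ∈ Finset.range (n + 1), C (a i m) * X ^ i := by
    intro m
    simp only [Q, P]
    rw [Polynomial.map_sum]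
    refine Finset.sum_congr rfl fun i _ => ?_
    rw [Polynomial.map_mul, map_C, Polynomial.map_pow, map_X]
    rfl
  have hroot : ∀ m, a n m ≠ 0 → ∃ x, (Q m).eval x = 0 := by
    intro m hm
    apply odd_root
    have hcoeff : (Q m).coeff n = a n m := by
      rw [hQ, finsetSum_coeff]
      rw [Finset.sum_eq_single n]
      · simp
      · intro i _ hi
        rw [coeff_C_mul, coeff_X_pow, if_neg (Ne.symm hi), mul_zero]
      · intro h; exact absurd (Finset.mem_range.2 (Nat.lt_succ_self n)) h
    have hle : (Q m).natDegree ≤ n := by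
      rw [hQ]
      refine natDegree_sum_le_of_forall_le _ _ fun i hi => ?_
      refine (natDegree_C_mul_X_pow_le _ _).trans ?_
      have := Finset.mem_range.1 hi
      omega
    have : (Q m).natDegree = n := by
      refine le_antisymm hle (le_natDegree_of_ne_zero ?_)
      rw [hcoeff]; exact hm
    rw [this]; exact hf
  let r : ℕ → ℝ := fun m => if h : a n m ≠ 0 then (hroot m h).choose else 0
  refine ⟨seq r, ?_⟩
  have h₁ : f.eval (seq r) = seq (P.eval r) := by
    rw [← hP, eval_map, eval₂_at_apply]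
  rw [IsRoot, h₁, seq_eq_zero]
  have hlc : ∀ᶠ m in (hyperfilter ℕ : Filter ℕ), a n m ≠ 0 := by
    have hne : f.leadingCoeff ≠ 0 := by
      rw [leadingCoeff_ne_zero]
      intro h0
      rw [hn, h0, natDegree_zero] at hf
      exact absurd hf (by decide)
    have : ¬ ∀ᶠ m in (hyperfilter ℕ : Filter ℕ), a n m = 0 := by
      rw [← seq_eq_zero, ha]; exact hne
    exact Ultrafilter.eventually_not.2 this
  refine hlc.mono fun m hm => ?_
  have h₂ : (P.eval r) m = (Q m).eval (r m) := by
    have h₃ : (Q m).eval (Pi.evalRingHom (fun _ : ℕ => ℝ) m r) =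
        (Pi.evalRingHom (fun _ : ℕ => ℝ) m) (P.eval r) := by
      change (P.map (Pi.evalRingHom (fun _ => ℝ) m)).eval _ = _
      rw [eval_map, eval₂_at_apply]
    exact h₃.symm
  rw [h₂]
  simp only [r]
  rw [dif_pos hm]
  exact (hroot m hm).choose_spec

theorem hyperreal_isSquare {x : ℝ*} (hx : 0 ≤ x) : IsSquare x := by
  obtain ⟨a, rfl⟩ := seq_surjective x
  have ha : ∀ᶠ m in (hyperfilter ℕ : Filter ℕ), 0 ≤ a m := Germ.coe_le.1 hx
  refine ⟨seq (fun m => Real.sqrt (a m)), ?_⟩
  rw [← map_mul, ← sub_eq_zero, ← map_sub, seq_eq_zero]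
  refine ha.mono fun m hm => ?_
  simp only [Pi.sub_apply, Pi.mul_apply]
  rw [Real.mul_self_sqrt hm, sub_self]

theorem exists_algInd : ∃ s : ℕ → ℝ*, AlgebraicIndependent ℚ s := by
  obtain ⟨ι, x, hx⟩ := exists_isTranscendenceBasis' ℚ ℝ*
  have hinf : Infinite ι := by
    by_contra hfin
    rw [not_infinite_iff_finite] at hfin
    have hunc : ¬ Countable ℝ* := by
      intro h
      have hinj : Function.Injective (Hyperreal.ofReal) := fun a b h => Hyperreal.coe_eq_coe.1 h
      have : Countable ℝ := hinj.countable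
      exact not_countable this
    apply hunc
    have halg := hx.isAlgebraic
    have hcard := Algebra.IsAlgebraic.cardinalMk_le_max (Algebra.adjoin ℚ (Set.range x)) ℝ*
    rw [← Cardinal.mk_le_aleph0_iff]
    refine hcard.trans (max_le ?_ le_rfl)
    refine (Algebra.cardinalMk_adjoin_le ℚ (Set.range x)).trans ?_
    simp only [max_le_iff]
    refine ⟨⟨Cardinal.mk_le_aleph0, ?_⟩, le_rfl⟩
    exact (Set.finite_range x).countable.le_aleph0
  exact ⟨_, hx.1.comp _ (Infinite.natEmbedding ι).injective⟩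

/-- the generators -/
noncomputable def gens : Set ℝ* := insert Hyperreal.omega (Set.range exists_algInd.choose)

/-- the countable base field -/
noncomputable def F₀ : IntermediateField ℚ ℝ* := IntermediateField.adjoin ℚ gens

/-- the countable real closed field -/
abbrev RC : Type := algebraicClosure F₀ ℝ*

theorem mem_RC_of_isAlgebraic {x : ℝ*} (hx : IsAlgebraic (algebraicClosure F₀ ℝ*) x) :
    x ∈ algebraicClosure F₀ ℝ* :=
  mem_algebraicClosure_iff.2 (hx.restrictScalars F₀)

theorem mem_RC_of_mem_gens {x : ℝ*} (hx : x ∈ gens) : x ∈ algebraicClosure F₀ ℝ* := by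
  rw [mem_algebraicClosure_iff]
  exact isAlgebraic_algebraMap (⟨x, IntermediateField.subset_adjoin ℚ gens hx⟩ : F₀)

noncomputable example : LinearOrder RC := inferInstance
example : IsStrictOrderedRing RC := inferInstance
noncomputable example : Algebra ℚ RC := inferInstance

instance : IsRealClosed RC := by
  refine IsRealClosed.of_linearOrderedField ?_ ?_
  · intro x hx
    obtain ⟨y, hy⟩ := hyperreal_isSquare (x := (x : ℝ*)) hx
    have hmem : y ∈ algebraicClosure F₀ ℝ* := by
      apply mem_RC_of_isAlgebraic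
      refine ⟨X ^ 2 - C x, (monic_X_pow_sub_C x (by norm_num)).ne_zero, ?_⟩
      simp only [map_sub, map_pow, aeval_X, aeval_C]
      change y ^ 2 - (x : ℝ*) = 0
      rw [hy]; ring
    exact ⟨⟨y, hmem⟩, Subtype.ext hy⟩
  · intro f hf
    have hinj : Function.Injective (algebraMap RC ℝ*) := (algebraMap RC ℝ*).injective
    have hf' : Odd (f.map (algebraMap RC ℝ*)).natDegree := by
      rwa [natDegree_map_eq_of_injective hinj]
    obtain ⟨x, hx⟩ := hyperreal_odd_root hf'
    have hne : f ≠ 0 := by rintro rfl; simp at hf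
    have hmem : x ∈ algebraicClosure F₀ ℝ* := by
      apply mem_RC_of_isAlgebraic
      refine ⟨f, hne, ?_⟩
      rw [IsRoot, eval_map] at hx
      exact hx
    refine ⟨⟨x, hmem⟩, ?_⟩
    apply hinj
    rw [map_zero, ← eval₂_at_apply, ← eval_map]
    exact hx

instance : Countable RC := by
  have h₀ : Cardinal.mk F₀ ≤ Cardinal.aleph0 := by
    refine (IntermediateField.cardinalMk_adjoin_le ℚ gens).trans ?_
    simp only [max_le_iff]
    refine ⟨⟨Cardinal.mk_le_aleph0, ?_⟩, le_rfl⟩
    exact ((Set.countable_range _).insert _).le_aleph0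
  have := Algebra.IsAlgebraic.cardinalMk_le_max F₀ RC
  rw [← Cardinal.mk_le_aleph0_iff]
  exact this.trans (max_le h₀ le_rfl)

theorem trdeg_RC : Cardinal.aleph0 ≤ Algebra.trdeg ℚ RC := by
  have hs := exists_algInd.choose_spec
  have hmem : ∀ n, exists_algInd.choose n ∈ algebraicClosure F₀ ℝ* := fun n =>
    mem_RC_of_mem_gens (Set.mem_insert_of_mem _ ⟨n, rfl⟩)
  let t : ℕ → RC := fun n => ⟨exists_algInd.choose n, hmem n⟩
  let i : RC →ₐ[ℚ] ℝ* := (algebraicClosure F₀ ℝ*).val.restrictScalars ℚ
  have ht : AlgebraicIndependent ℚ t := by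
    have : AlgebraicIndependent ℚ (i ∘ t) := hs
    exact this.of_comp i
  have := ht.cardinalMk_le_trdeg
  simpa using this

theorem exists_infinite : ∃ w : RC, ∀ n : ℕ, (n : RC) < w := by
  refine ⟨⟨Hyperreal.omega, mem_RC_of_mem_gens (Set.mem_insert _ _)⟩, fun n => ?_⟩
  change (((n : RC) : ℝ*)) < Hyperreal.omega
  have h₁ : (((n : RC) : ℝ*)) = seq (n : ℕ → ℝ) := by
    rw [map_natCast]
    exact map_natCast (algebraicClosure F₀ ℝ*).val n
  rw [h₁]
  exact Hyperreal.coe_lt_omega (n : ℝ)

end Pool.Agent.Q297.DRC
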