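import Pool.Agent.Q297.DRC.Hyper

/-! An ordered field dense in its real closure with a definable convex valuation. -/

namespace Pool.Agent.Q297.DRC

open FirstOrder FirstOrder.Language

/-- Function symbols of the language of ordered rings. -/
inductive ORFun : ℕ → Type
  | zero : ORFun 0
  | one : ORFun 0
  | neg : ORFun 1
  | add : ORFun 2
  | mul : ORFun 2

/-- Relation symbols of the language of ordered rings. -/
inductive ORRel : ℕ → Type
  | lt : ORRel 2

/-- The language of ordered rings. -/
def Lor : FirstOrder.Language := ⟨ORFun, ORRel⟩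

/-- An ordered field as a structure for the language of ordered rings. -/
@[reducible]
def orStructure (K : Type) [Field K] [LinearOrder K] : Lor.Structure K where
  funMap := fun {n} (f : ORFun n) =>
    match n, f with
    | _, .zero => fun _ => 0
    | _, .one => fun _ => 1
    | _, .neg => fun v => - v 0
    | _, .add => fun v => v 0 + v 1
    | _, .mul => fun v => v 0 * v 1
  RelMap := fun {n} (r : ORRel n) =>
    match n, r with
    | _, .lt => fun v => v 0 < v 1

/-- `K` is dense in its real closure: there is a real closed ordered field `R`, algebraic over `K`,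
whose order extends the order of `K`, such that every nonempty open interval of `R` contains an
element of `K`. -/
def DenseInRealClosure (K : Type) [Field K] [LinearOrder K] : Prop :=
  ∃ (R : Type) (_ : Field R) (_ : LinearOrder R) (_ : IsStrictOrderedRing R) (_ : Algebra K R),
    IsRealClosed R ∧ Algebra.IsAlgebraic K R ∧ StrictMono (algebraMap K R) ∧
      ∀ a b : R, a < b → ∃ x : K, a < algebraMap K R x ∧ algebraMap K R x < b

/-- A subset of `K` is definable, with parameters from `K`, in the language of ordered rings. -/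
def OrDefinable (K : Type) [Field K] [LinearOrder K] (A Z : Set K) : Prop :=
  letI := orStructure K
  A.Definable₁ Lor Z

section Formula

/-- `t · t · t` -/
def cube {n : ℕ} (t : Lor.Term (Fin 1 ⊕ Fin n)) : Lor.Term (Fin 1 ⊕ Fin n) :=
  Functions.apply₂ (L := Lor) ORFun.mul t (Functions.apply₂ (L := Lor) ORFun.mul t t)

/-- The body of the defining formula. -/
def body : Lor.BoundedFormula (Fin 1) 2 :=
  (Term.bdEqual (Functions.apply₂ (L := Lor) ORFun.add (cube (Term.var (Sum.inr 0)))
      (cube (Term.var (Sum.inr 1)))) (Constants.term (L := Lor) ORFun.one)) ⊓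
    (∼(Relations.boundedFormula₂ (L := Lor) ORRel.lt (Term.var (Sum.inr 0))
        (Term.var (Sum.inl 0))) ⊓
      ∼(Relations.boundedFormula₂ (L := Lor) ORRel.lt (Term.var (Sum.inl 0))
        (Functions.apply₁ (L := Lor) ORFun.neg (Term.var (Sum.inr 0)))))

/-- The defining formula: `∃ c y, c³ + y³ = 1 ∧ a ≤ c ∧ -c ≤ a`. -/
def fml : Lor.Formula (Fin 1) := body.ex.ex

theorem realize_fml {K : Type} [Field K] [LinearOrder K] (v : Fin 1 → K) :
    letI := orStructure K
    fml.Realize v ↔ ∃ c y : K, c * (c * c) + y * (y * y) = 1 ∧ ¬ c < v 0 ∧ ¬ v 0 < -c := by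
  letI := orStructure K
  simp only [fml, Formula.Realize, BoundedFormula.realize_ex, body, BoundedFormula.realize_inf,
    BoundedFormula.realize_not, BoundedFormula.realize_bdEqual, BoundedFormula.realize_rel₂]
  rfl

end Formula

theorem main : ∃ (K : Type) (_ : Field K) (_ : LinearOrder K) (_ : IsStrictOrderedRing K),
    DenseInRealClosure K ∧ ∃ O : ValuationSubring K, O ≠ ⊤ ∧ (O : Set K).OrdConnected ∧
      OrDefinable K ∅ (O : Set K) := by
  obtain ⟨U, hkU, hU, hdense⟩ := exists_dense trdeg_RC (good_algebraicClosure (R := RC))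
  obtain ⟨K, hUK, hK, halg⟩ := exists_maximal hU
  set k := algebraicClosure ℚ RC with hk
  have hkK : k ≤ K := hkU.trans hUK
  have hdK : ∀ a b : RC, a < b → ∃ c ∈ K, a < c ∧ c < b := fun a b hab => by
    obtain ⟨c, hc, h⟩ := hdense a b hab
    exact ⟨c, hUK hc, h⟩
  have hcube : ∀ c : RC, c ∈ k → ∃ y ∈ k, c ^ 3 + y ^ 3 = 1 := by
    intro c hc
    obtain ⟨y, hy⟩ := IsRealClosed.exists_eq_pow_of_odd (1 - c ^ 3) (n := 3) (by decide)
    refine ⟨y, ?_, by rw [← hy]; ring⟩
    rw [hk, mem_algebraicClosure_iff] at hc ⊢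
    have : IsAlgebraic ℚ (y ^ 3) := by
      rw [← hy]
      exact (isAlgebraic_one).sub (hc.pow 3)
    exact this.of_pow (by norm_num)
  have hmemk : ∀ c : RC, c ∈ k ↔ c ∈ K ∧ ∃ y ∈ K, c ^ 3 + y ^ 3 = 1 := by
    intro c
    constructor
    · intro hc
      obtain ⟨y, hy, h⟩ := hcube c hc
      exact ⟨hkK hc, y, hkK hy, h⟩
    · rintro ⟨hc, y, hy, h⟩
      exact hK c hc y hy h
  refine ⟨K, inferInstance, inferInstance, inferInstance, ?_, ?_⟩
  · refine ⟨RC, inferInstance, inferInstance, inferInstance, inferInstance, inferInstance,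
      ⟨halg⟩, fun a b h => h, fun a b hab => ?_⟩
    obtain ⟨c, hc, h⟩ := hdK a b hab
    exact ⟨⟨c, hc⟩, h⟩
  · let O : ValuationSubring K :=
      { carrier := {a | ∃ c : RC, c ∈ k ∧ |(a : RC)| ≤ c}
        mul_mem' := by
          rintro a b ⟨c, hc, h⟩ ⟨d, hd, h'⟩
          refine ⟨c * d, k.mul_mem hc hd, ?_⟩
          change |(a : RC) * (b : RC)| ≤ c * d
          rw [abs_mul]
          exact mul_le_mul h h' (abs_nonneg _) ((abs_nonneg _).trans h)
        one_mem' := ⟨1, k.one_mem, by
          change |(1 : RC)| ≤ 1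
          simp⟩
        add_mem' := by
          rintro a b ⟨c, hc, h⟩ ⟨d, hd, h'⟩
          refine ⟨c + d, k.add_mem hc hd, ?_⟩
          change |(a : RC) + (b : RC)| ≤ c + d
          exact (abs_add_le _ _).trans (add_le_add h h')
        zero_mem' := ⟨0, k.zero_mem, by
          change |(0 : RC)| ≤ 0
          simp⟩
        neg_mem' := by
          rintro a ⟨c, hc, h⟩
          refine ⟨c, hc, ?_⟩
          change |-(a : RC)| ≤ c
          rwa [abs_neg]
        mem_or_inv_mem' := by
          intro a
          rcases le_total |(a : RC)| 1 with h | h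
          · exact Or.inl ⟨1, k.one_mem, h⟩
          · refine Or.inr ⟨1, k.one_mem, ?_⟩
            change |(a : RC)⁻¹| ≤ 1
            rw [abs_inv]
            exact inv_le_one_of_one_le₀ h }
    have hO : ∀ a : K, a ∈ O ↔ ∃ c : RC, c ∈ k ∧ |(a : RC)| ≤ c := fun a => Iff.rfl
    refine ⟨O, ?_, ?_, ?_⟩
    · intro htop
      obtain ⟨w, hw⟩ := exists_infinite
      obtain ⟨x, hx, h₁, _⟩ := hdK w (w + 1) (lt_add_one w)
      have hxO : (⟨x, hx⟩ : K) ∈ O := by rw [htop]; trivial
      obtain ⟨c, hc, hxc⟩ := (hO _).1 hxO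
      obtain ⟨n, hn⟩ := le_nat_of_isAlgebraic (mem_algebraicClosure_iff.1 hc)
      have h₂ : x ≤ c := (le_abs_self x).trans hxc
      have h₃ := hw n
      exact absurd (h₃.trans (h₁.trans_le (h₂.trans hn))) (lt_irrefl _)
    · refine ⟨?_⟩
      intro a ha b hb x hx
      obtain ⟨c, hc, h⟩ := (hO _).1 ha
      obtain ⟨d, hd, h'⟩ := (hO _).1 hb
      refine (hO _).2 ⟨c + d, k.add_mem hc hd, ?_⟩
      have h₁ : (a : RC) ≤ x := hx.1
      have h₂ : (x : RC) ≤ b := hx.2
      rw [abs_le] at h h' ⊢
      constructor <;> linarith [abs_nonneg (a : RC), h.1, h.2, h'.1, h'.2]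
    · letI := orStructure K
      change (∅ : Set K).Definable₁ Lor (O : Set K)
      rw [Set.Definable₁, Set.empty_definable_iff]
      refine ⟨fml, ?_⟩
      ext v
      rw [Set.mem_ofPred_eq, Set.mem_ofPred_eq, realize_fml]
      constructor
      · intro hv
        obtain ⟨c, hc, h⟩ := (hO _).1 hv
        obtain ⟨y, hy, hcy⟩ := hcube c hc
        rw [abs_le] at h
        refine ⟨⟨c, hkK hc⟩, ⟨y, hkK hy⟩, ?_, ?_, ?_⟩
        · apply Subtype.ext
          change c * (c * c) + y * (y * y) = 1
          linear_combination hcy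
        · exact not_lt.2 h.2
        · exact not_lt.2 h.1
      · rintro ⟨c, y, h₁, h₂, h₃⟩
        refine (hO _).2 ⟨c, ?_, ?_⟩
        · refine (hmemk c).2 ⟨c.2, y, y.2, ?_⟩
          have := congrArg (fun t : K => (t : RC)) h₁
          change (c : RC) * (c * c) + y * (y * y) = 1 at this
          linear_combination this
        · rw [abs_le]
          exact ⟨not_lt.1 h₃, not_lt.1 h₂⟩

end Pool.Agent.Q297.DRC
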